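import Pool.Agent.Helper42.Jef.Defs2

/-! # Truncations `bk k x = x / √(1 + |x|²/k²)` -/

open MeasureTheory Set Filter Topology
open scoped ENNReal ContDiff

open Pool.Agent.Helper42.Jef

namespace Pool.Agent.Helper22.Jef

variable {E : Type*} [NormedAddCommGroup E] [InnerProductSpace ℝ E]

/-- the scalar factor -/
noncomputable def gk (k : ℝ) (x : E) : ℝ := (Real.sqrt (1 + ‖x‖ ^ 2 / k ^ 2))⁻¹

theorem bk_eq (k : ℝ) (x : E) : bk k x = gk k x • x := rfl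

omit [InnerProductSpace ℝ E] in
theorem gk_arg_pos (k : ℝ) (x : E) : 0 < 1 + ‖x‖ ^ 2 / k ^ 2 := by positivity

omit [InnerProductSpace ℝ E] in
theorem gk_pos (k : ℝ) (x : E) : 0 < gk k x := by
  unfold gk; positivity

theorem gk_sq (k : ℝ) (x : E) : gk k x ^ 2 = (1 + ‖x‖ ^ 2 / k ^ 2)⁻¹ := by
  unfold gk
  rw [inv_pow, Real.sq_sqrt (gk_arg_pos k x).le]

theorem gk_sq_mul (k : ℝ) (x : E) : gk k x ^ 2 * (1 + ‖x‖ ^ 2 / k ^ 2) = 1 := by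
  rw [gk_sq, inv_mul_cancel₀ (gk_arg_pos k x).ne']

theorem gk_le_one (k : ℝ) (x : E) : gk k x ≤ 1 := by
  have h1 := gk_sq_mul k x
  have h2 : 0 ≤ ‖x‖ ^ 2 / k ^ 2 := by positivity
  have h3 : gk k x ^ 2 ≤ 1 := by nlinarith [sq_nonneg (gk k x)]
  nlinarith [gk_pos k x]

theorem gk_mul_le (k : ℝ) (x : E) : gk k x ^ 2 * (‖x‖ ^ 2 / k ^ 2) ≤ 1 := by
  have h1 := gk_sq_mul k x
  nlinarith [sq_nonneg (gk k x)]

theorem gk_mul_norm_le (k : ℝ) (x : E) (hk : 0 < k) : gk k x * (‖x‖ / k) ≤ 1 := by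
  have h1 := gk_mul_le k x
  have h2 : 0 ≤ gk k x * (‖x‖ / k) := by
    have := (gk_pos k x).le
    positivity
  have h3 : (gk k x * (‖x‖ / k)) ^ 2 ≤ 1 := by
    rw [mul_pow, div_pow]; exact h1
  nlinarith

theorem norm_bk (k : ℝ) (x : E) : ‖bk k x‖ = gk k x * ‖x‖ := by
  rw [bk_eq, norm_smul, Real.norm_of_nonneg (gk_pos k x).le]

theorem norm_bk_sq (k : ℝ) (x : E) : ‖bk k x‖ ^ 2 = ‖x‖ ^ 2 / (1 + ‖x‖ ^ 2 / k ^ 2) := by
  rw [norm_bk, mul_pow, gk_sq]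
  field_simp

theorem bk_norm_le (k : ℝ) (x : E) : ‖bk k x‖ ≤ ‖x‖ := by
  rw [norm_bk]
  exact mul_le_of_le_one_left (norm_nonneg _) (gk_le_one k x)

theorem bk_norm_le_k {k : ℝ} (hk : 0 < k) (x : E) : ‖bk k x‖ ≤ k := by
  rw [norm_bk]
  have h1 := gk_mul_norm_le k x hk
  rw [← mul_div_assoc, div_le_one hk] at h1
  exact h1

theorem gk_hasFDerivAt {k : ℝ} (x : E) :
    HasFDerivAt (gk k : E → ℝ) ((-(gk k x ^ 3 / k ^ 2)) • innerSL ℝ x) x := by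
  have h1 : HasFDerivAt (fun y : E => 1 + ‖y‖ ^ 2 / k ^ 2) ((2 / k ^ 2) • innerSL ℝ x) x := by
    have h2 : HasFDerivAt (fun y : E => ‖y‖ ^ 2) (2 • innerSL ℝ x) x :=
      (hasStrictFDerivAt_norm_sq x).hasFDerivAt
    have h3 := (h2.const_mul ((k ^ 2)⁻¹)).const_add 1
    have h4 : (fun y : E => 1 + ‖y‖ ^ 2 / k ^ 2) = fun y : E => 1 + (k ^ 2)⁻¹ * ‖y‖ ^ 2 := by
      funext y; rw [div_eq_inv_mul]
    rw [h4]
    refine h3.congr_fderiv ?_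
    ext y
    simp
    ring
  have hpos := gk_arg_pos k x
  have h5 : HasDerivAt (fun s : ℝ => (Real.sqrt s)⁻¹)
      (-(1 / (2 * Real.sqrt (1 + ‖x‖ ^ 2 / k ^ 2))) / Real.sqrt (1 + ‖x‖ ^ 2 / k ^ 2) ^ 2)
      (1 + ‖x‖ ^ 2 / k ^ 2) :=
    (Real.hasDerivAt_sqrt hpos.ne').inv (Real.sqrt_ne_zero'.mpr hpos)
  have h6 := h5.comp_hasFDerivAt x h1
  refine h6.congr_fderiv ?_
  rw [smul_smul]
  congr 1
  unfold gk
  have hs : Real.sqrt (1 + ‖x‖ ^ 2 / k ^ 2) ≠ 0 := Real.sqrt_ne_zero'.mpr hpos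
  generalize Real.sqrt (1 + ‖x‖ ^ 2 / k ^ 2) = s at hs
  by_cases hk : k = 0
  · subst hk; simp
  · field_simp

theorem gk_contDiff (k : ℝ) : ContDiff ℝ ∞ (gk k : E → ℝ) := by
  unfold gk
  refine ContDiff.inv ?_ (fun x => Real.sqrt_ne_zero'.mpr (gk_arg_pos k x))
  refine ContDiff.sqrt ?_ (fun x => (gk_arg_pos k x).ne')
  exact contDiff_const.add ((contDiff_norm_sq ℝ).div_const _)

theorem bk_contDiff (k : ℝ) : ContDiff ℝ ∞ (bk k : E → E) :=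
  (gk_contDiff k).smul contDiff_id

theorem bk_hasFDerivAt (k : ℝ) (x : E) :
    HasFDerivAt (bk k : E → E)
      (gk k x • ContinuousLinearMap.id ℝ E +
        ((-(gk k x ^ 3 / k ^ 2)) • innerSL ℝ x).smulRight x) x :=
  (gk_hasFDerivAt x).smul (hasFDerivAt_id x)

theorem bk_fderiv (k : ℝ) (x h : E) :
    fderiv ℝ (bk k) x h = gk k x • h - (gk k x ^ 3 / k ^ 2 * inner ℝ x h) • x := by
  rw [(bk_hasFDerivAt k x).fderiv]
  simp [sub_eq_add_neg]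

theorem bk_fderiv_apply_norm (k : ℝ) (x h : E) : ‖fderiv ℝ (bk k) x h‖ ≤ ‖h‖ := by
  have hg := gk_pos k x
  have hg1 := gk_le_one k x
  have h1 : ‖fderiv ℝ (bk k) x h‖ ^ 2 ≤ ‖h‖ ^ 2 := by
    rw [bk_fderiv, norm_sub_sq_real, norm_smul, norm_smul, real_inner_smul_left,
      real_inner_smul_right, mul_pow, mul_pow, Real.norm_eq_abs, Real.norm_eq_abs, sq_abs, sq_abs,
      real_inner_comm x h]
    set g := gk k x
    set p := inner ℝ x h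
    have h2 := gk_mul_le k x
    have h3 : g ^ 2 * ‖h‖ ^ 2 - 2 * (g * (g ^ 3 / k ^ 2 * p * p)) +
        (g ^ 3 / k ^ 2 * p) ^ 2 * ‖x‖ ^ 2 =
        g ^ 2 * (‖h‖ ^ 2 - (g ^ 2 * p ^ 2 / k ^ 2) * (2 - g ^ 2 * (‖x‖ ^ 2 / k ^ 2))) := by
      by_cases hk : k = 0
      · subst hk; simp
      · field_simp
        ring
    have h4 : 0 ≤ (g ^ 2 * p ^ 2 / k ^ 2) * (2 - g ^ 2 * (‖x‖ ^ 2 / k ^ 2)) := by
      apply mul_nonneg (by positivity)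
      have : g ^ 2 * (‖x‖ ^ 2 / k ^ 2) ≤ 1 := h2
      linarith
    rw [h3]
    have h5 : g ^ 2 ≤ 1 := by nlinarith
    calc g ^ 2 * (‖h‖ ^ 2 - (g ^ 2 * p ^ 2 / k ^ 2) * (2 - g ^ 2 * (‖x‖ ^ 2 / k ^ 2)))
        ≤ g ^ 2 * ‖h‖ ^ 2 := by
          apply mul_le_mul_of_nonneg_left _ (by positivity)
          linarith
      _ ≤ 1 * ‖h‖ ^ 2 := by
          apply mul_le_mul_of_nonneg_right h5 (by positivity)
      _ = ‖h‖ ^ 2 := one_mul _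
  exact (sq_le_sq₀ (norm_nonneg _) (norm_nonneg _)).mp h1

theorem bk_fderiv_norm (k : ℝ) (x : E) : ‖fderiv ℝ (bk k) x‖ ≤ 1 :=
  ContinuousLinearMap.opNorm_le_bound _ zero_le_one
    (fun h => by rw [one_mul]; exact bk_fderiv_apply_norm k x h)

theorem bk_lip (k : ℝ) (x y : E) : ‖bk k x - bk k y‖ ≤ ‖x - y‖ := by
  have h := Convex.norm_image_sub_le_of_norm_fderiv_le (𝕜 := ℝ) (f := (bk k : E → E)) (s := univ)
    (C := 1) (fun z _ => (bk_hasFDerivAt k z).differentiableAt) (fun z _ => bk_fderiv_norm k z)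
    convex_univ (mem_univ y) (mem_univ x)
  rwa [one_mul] at h

theorem gk_anti {k l : ℝ} (hk : 0 < k) (hkl : k ≤ l) (x : E) : gk k x ≤ gk l x := by
  unfold gk
  apply inv_anti₀ (Real.sqrt_pos.mpr (gk_arg_pos l x))
  apply Real.sqrt_le_sqrt
  have : ‖x‖ ^ 2 / l ^ 2 ≤ ‖x‖ ^ 2 / k ^ 2 := by
    apply div_le_div_of_nonneg_left (by positivity) (by positivity)
    exact pow_le_pow_left₀ hk.le hkl 2
  linarith

theorem bk_mono {k l : ℝ} (hk : 0 < k) (hkl : k ≤ l) (x : E) : ‖bk k x‖ ≤ ‖bk l x‖ := by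
  rw [norm_bk, norm_bk]
  exact mul_le_mul_of_nonneg_right (gk_anti hk hkl x) (norm_nonneg _)

theorem bk_diff_sq {k l : ℝ} (hk : 0 < k) (hkl : k ≤ l) (x : E) :
    ‖bk l x - bk k x‖ ^ 2 ≤ ‖bk l x‖ ^ 2 - ‖bk k x‖ ^ 2 := by
  have h1 := gk_anti hk hkl x
  have h2 := gk_pos k x
  have h3 : bk l x - bk k x = (gk l x - gk k x) • x := by
    rw [bk_eq, bk_eq, sub_smul]
  rw [h3, norm_smul, norm_bk, norm_bk, Real.norm_of_nonneg (by linarith)]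
  have h4 : 0 ≤ ‖x‖ ^ 2 * (gk k x * (gk l x - gk k x)) := by
    apply mul_nonneg (by positivity)
    exact mul_nonneg h2.le (by linarith)
  nlinarith

theorem gk_one_sub_le {k : ℝ} (hk : 0 < k) (x : E) : 1 - gk k x ≤ ‖x‖ / k := by
  have hρ : 0 ≤ ‖x‖ / k := by positivity
  have h1 := gk_sq_mul k x
  have h2 := gk_pos k x
  rw [← div_pow] at h1
  set ρ := ‖x‖ / k
  set g := gk k x
  -- `g (1 + ρ) ≥ 1`
  have h3 : 1 ≤ (g * (1 + ρ)) ^ 2 := by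
    have : (g * (1 + ρ)) ^ 2 = g ^ 2 * (1 + ρ ^ 2) + 2 * (g ^ 2 * ρ) := by ring
    rw [this, h1]
    have : 0 ≤ g ^ 2 * ρ := by positivity
    linarith
  have h4 : 0 ≤ g * (1 + ρ) := by positivity
  have h5 : 1 ≤ g * (1 + ρ) := by nlinarith
  have h6 := gk_le_one k x
  have h7 : g * ρ ≤ ρ := by
    have : g ≤ 1 := h6
    nlinarith
  linarith

theorem bk_sub_le {k : ℝ} (hk : 0 < k) (x : E) : ‖x - bk k x‖ ≤ ‖x‖ ^ 2 / k := by
  have h1 := gk_one_sub_le hk x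
  have h2 := gk_le_one k x
  have h3 : x - bk k x = (1 - gk k x) • x := by rw [bk_eq, sub_smul, one_smul]
  rw [h3, norm_smul, Real.norm_of_nonneg (by linarith)]
  calc (1 - gk k x) * ‖x‖ ≤ (‖x‖ / k) * ‖x‖ := mul_le_mul_of_nonneg_right h1 (norm_nonneg _)
    _ = ‖x‖ ^ 2 / k := by ring

theorem bk_fderiv_sub_le {k : ℝ} (hk : 0 < k) (x h : E) :
    ‖fderiv ℝ (bk k) x h - h‖ ≤ 2 * (‖x‖ / k) * ‖h‖ := by
  have hg := gk_pos k x
  have hg1 := gk_le_one k x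
  have h1 := gk_one_sub_le hk x
  have h2 := gk_mul_norm_le k x hk
  have hρ : 0 ≤ ‖x‖ / k := by positivity
  have e : fderiv ℝ (bk k) x h - h =
      -((1 - gk k x) • h + (gk k x ^ 3 / k ^ 2 * inner ℝ x h) • x) := by
    rw [bk_fderiv, sub_smul, one_smul]; abel
  rw [e, norm_neg]
  refine (norm_add_le _ _).trans ?_
  rw [norm_smul, norm_smul, Real.norm_of_nonneg (by linarith : (0 : ℝ) ≤ 1 - gk k x)]
  have h3 : ‖gk k x ^ 3 / k ^ 2 * inner ℝ x h‖ * ‖x‖ ≤ (‖x‖ / k) * ‖h‖ := by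
    rw [norm_mul, Real.norm_of_nonneg (by positivity : (0 : ℝ) ≤ gk k x ^ 3 / k ^ 2)]
    have h4 : ‖inner ℝ x h‖ ≤ ‖x‖ * ‖h‖ := by
      rw [Real.norm_eq_abs]; exact abs_real_inner_le_norm x h
    calc gk k x ^ 3 / k ^ 2 * ‖inner ℝ x h‖ * ‖x‖
        ≤ gk k x ^ 3 / k ^ 2 * (‖x‖ * ‖h‖) * ‖x‖ := by gcongr
      _ = (gk k x * (gk k x * (‖x‖ / k))) * (gk k x * (‖x‖ / k) * ‖h‖) := by
          field_simp
      _ ≤ (1 * 1) * (1 * (‖x‖ / k) * ‖h‖) := by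
          gcongr
      _ = (‖x‖ / k) * ‖h‖ := by ring
  have h5 : (1 - gk k x) * ‖h‖ ≤ (‖x‖ / k) * ‖h‖ :=
    mul_le_mul_of_nonneg_right h1 (norm_nonneg _)
  linarith

theorem bk_fderiv_sub_le_two (k : ℝ) (x h : E) :
    ‖fderiv ℝ (bk k) x h - h‖ ≤ 2 * ‖h‖ := by
  have := norm_sub_le (fderiv ℝ (bk k) x h) h
  have h2 := bk_fderiv_apply_norm k x h
  linarith

theorem bk_big {l j : ℝ} (hl : 0 < l) {x : E} (hx : 2 * l ≤ ‖x‖) (hj : 2 * l ≤ j) :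
    ‖bk j x‖ ^ 2 ≤ 2 * (‖bk j x‖ ^ 2 - ‖bk l x‖ ^ 2) := by
  have hj0 : 0 < j := by linarith
  have hmain : 2 * ‖bk l x‖ ^ 2 ≤ ‖bk j x‖ ^ 2 := by
    rw [norm_bk_sq, norm_bk_sq]
    set r := ‖x‖
    have hr : 0 < r := by linarith
    have h1 : 2 * (1 + r ^ 2 / j ^ 2) ≤ 1 + r ^ 2 / l ^ 2 := by
      have h2 : 4 ≤ r ^ 2 / l ^ 2 := by
        rw [le_div_iff₀ (by positivity)]
        nlinarith
      have h3 : r ^ 2 / j ^ 2 ≤ r ^ 2 / l ^ 2 / 4 := by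
        rw [div_div]
        apply div_le_div_of_nonneg_left (by positivity) (by positivity)
        nlinarith
      linarith
    rw [mul_div_assoc', div_le_div_iff₀ (by positivity) (by positivity)]
    nlinarith [sq_nonneg r]
  linarith

theorem bk_sq_hasFDerivAt (k : ℝ) (x : E) :
    HasFDerivAt (fun x : E => ‖bk k x‖ ^ 2)
      (2 • (innerSL ℝ (bk k x)).comp (fderiv ℝ (bk k) x)) x := by
  have h1 : HasFDerivAt (bk k : E → E) (fderiv ℝ (bk k) x) x :=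
    (bk_hasFDerivAt k x).differentiableAt.hasFDerivAt
  exact h1.norm_sq

theorem bk_sq_fderiv (k : ℝ) (x h : E) :
    fderiv ℝ (fun x : E => ‖bk k x‖ ^ 2) x h = 2 * inner ℝ (bk k x) (fderiv ℝ (bk k) x h) := by
  rw [(bk_sq_hasFDerivAt k x).fderiv]
  simp

theorem bk_sq_contDiff (k : ℝ) : ContDiff ℝ ∞ (fun x : E => ‖bk k x‖ ^ 2) :=
  (bk_contDiff k).norm_sq ℝ

theorem bk_sq_fderiv_le {k : ℝ} (hk : 0 < k) (x h : E) :
    |fderiv ℝ (fun x : E => ‖bk k x‖ ^ 2) x h| ≤ 2 * k * ‖h‖ := by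
  rw [bk_sq_fderiv, abs_mul, abs_two]
  have h1 := abs_real_inner_le_norm (bk k x) (fderiv ℝ (bk k) x h)
  have h2 := bk_norm_le_k hk x
  have h3 := bk_fderiv_apply_norm k x h
  have h4 : ‖bk k x‖ * ‖fderiv ℝ (bk k) x h‖ ≤ k * ‖h‖ :=
    mul_le_mul h2 h3 (norm_nonneg _) hk.le
  nlinarith

theorem bk_sq_fderiv_norm {k : ℝ} (hk : 0 < k) (x : E) :
    ‖fderiv ℝ (fun x : E => ‖bk k x‖ ^ 2) x‖ ≤ 2 * k :=
  ContinuousLinearMap.opNorm_le_bound _ (by positivity)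
    (fun h => by rw [Real.norm_eq_abs]; exact bk_sq_fderiv_le hk x h)

end Pool.Agent.Helper22.Jef
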