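import Pool.Agent.Helper22.JefBk

/-! # Truncated weak limits -/

open MeasureTheory Set Filter Topology
open scoped ENNReal

open Pool.Agent.Helper42.Jef

namespace Pool.Agent.Helper22.Jef

section basic

variable {α : Type*} [MeasurableSpace α] {μ : Measure α}
variable {E : Type*} [NormedAddCommGroup E] [InnerProductSpace ℝ E]

theorem l2_inner {f g : α → E} (hf : MemLp f 2 μ) (hg : MemLp g 2 μ) :
    Integrable (fun x => inner ℝ (f x) (g x)) μ := by
  have h := hf.norm.integrable_mul hg.norm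
  exact h.mono' (hf.1.inner hg.1) (Eventually.of_forall fun x => norm_inner_le_norm _ _)

omit [InnerProductSpace ℝ E] in
theorem l2_sq {f : α → E} (hf : MemLp f 2 μ) : Integrable (fun x => ‖f x‖ ^ 2) μ :=
  (memLp_two_iff_integrable_sq_norm hf.1).mp hf

omit [InnerProductSpace ℝ E] in
theorem lint_sq (f : α → E) : ∫⁻ x, ‖f x‖ₑ ^ 2 ∂μ = eLpNorm f 2 μ ^ 2 := by
  have := eLpNorm_nnreal_pow_eq_lintegral (f := f) (μ := μ) (p := 2) two_ne_zero
  have h2 : ((2 : NNReal) : ℝ≥0∞) = 2 := rfl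
  rw [h2] at this
  simp only [NNReal.coe_ofNat, ENNReal.rpow_ofNat] at this
  exact this.symm

omit [InnerProductSpace ℝ E] in
theorem int_sq_le {f : α → E} (hf : MemLp f 2 μ) {C : ℝ} (hC : 0 ≤ C)
    (h : eLpNorm f 2 μ ≤ ENNReal.ofReal C) : ∫ x, ‖f x‖ ^ 2 ∂μ ≤ C ^ 2 := by
  have h1 : ENNReal.ofReal (∫ x, ‖f x‖ ^ 2 ∂μ) = ∫⁻ x, ‖f x‖ₑ ^ 2 ∂μ := by
    rw [ofReal_integral_eq_lintegral_ofReal (l2_sq hf)
      (Eventually.of_forall fun x => by positivity)]
    refine lintegral_congr (fun x => ?_)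
    rw [ENNReal.ofReal_pow (norm_nonneg _), ofReal_norm]
  rw [lint_sq] at h1
  have h2 : ENNReal.ofReal (∫ x, ‖f x‖ ^ 2 ∂μ) ≤ ENNReal.ofReal (C ^ 2) := by
    rw [h1, ENNReal.ofReal_pow hC]
    gcongr
  exact (ENNReal.ofReal_le_ofReal_iff (by positivity)).mp h2

omit [InnerProductSpace ℝ E] in
theorem l2_integrableOn {f : α → E} (hf : MemLp f 2 μ) {B : Set α} (hB : μ B < ⊤) :
    IntegrableOn f B μ := by
  have : IsFiniteMeasure (μ.restrict B) := ⟨by simpa using hB⟩
  exact (hf.restrict B).integrable (by norm_num)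

theorem wc_set_inner {f : ℕ → α → E} {F : α → E} (h : WC μ f F) {G : α → E} (hG : MemLp G 2 μ)
    {B : Set α} (hB : MeasurableSet B) :
    Tendsto (fun m => ∫ x in B, inner ℝ (f m x) (G x) ∂μ) atTop
      (𝓝 (∫ x in B, inner ℝ (F x) (G x) ∂μ)) := by
  have h1 := h.conv (B.indicator G) (hG.indicator hB)
  have h2 : ∀ H : α → E, ∫ x, inner ℝ (H x) (B.indicator G x) ∂μ =
      ∫ x in B, inner ℝ (H x) (G x) ∂μ := by
    intro H
    rw [← integral_indicator hB]
    congr 1
    funext x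
    by_cases hx : x ∈ B <;> simp [hx]
  simp only [h2] at h1
  exact h1

theorem wc_set_inner_const {f : ℕ → α → E} {F : α → E} (h : WC μ f F) (e : E)
    {B : Set α} (hB : MeasurableSet B) (hB' : μ B < ⊤) :
    Tendsto (fun m => ∫ x in B, inner ℝ (f m x) e ∂μ) atTop
      (𝓝 (∫ x in B, inner ℝ (F x) e ∂μ)) := by
  have h1 := wc_set_inner h (memLp_indicator_const 2 hB e (Or.inr hB'.ne)) hB
  have h2 : ∀ H : α → E, ∫ x in B, inner ℝ (H x) (B.indicator (fun _ => e) x) ∂μ =
      ∫ x in B, inner ℝ (H x) e ∂μ := by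
    intro H
    refine setIntegral_congr_fun hB (fun x hx => ?_)
    simp [hx]
  simp only [h2] at h1
  exact h1

theorem wc_set_real {f : ℕ → α → ℝ} {F : α → ℝ} (h : WC μ f F)
    {B : Set α} (hB : MeasurableSet B) (hB' : μ B < ⊤) :
    Tendsto (fun m => ∫ x in B, f m x ∂μ) atTop (𝓝 (∫ x in B, F x ∂μ)) := by
  have h1 := wc_set_inner_const h 1 hB hB'
  simpa using h1

theorem wc_sub {f g : ℕ → α → E} {F G : α → E} (hf : WC μ f F) (hg : WC μ g G) :
    WC μ (fun m x => f m x - g m x) (fun x => F x - G x) where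
  mem m := (hf.mem m).sub (hg.mem m)
  bdd := by
    obtain ⟨C, hC⟩ := hf.bdd
    obtain ⟨D, hD⟩ := hg.bdd
    refine ⟨max C 0 + max D 0, fun m => ?_⟩
    refine (eLpNorm_sub_le (hf.mem m).1 (hg.mem m).1 (by norm_num)).trans ?_
    rw [ENNReal.ofReal_add (le_max_right _ _) (le_max_right _ _)]
    exact add_le_add ((hC m).trans (ENNReal.ofReal_le_ofReal (le_max_left _ _)))
      ((hD m).trans (ENNReal.ofReal_le_ofReal (le_max_left _ _)))
  memU := hf.memU.sub hg.memU
  conv g' hg' := by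
    have h1 := (hf.conv g' hg').sub (hg.conv g' hg')
    have h2 : ∀ H K : α → E, MemLp H 2 μ → MemLp K 2 μ →
        ∫ x, inner ℝ (H x - K x) (g' x) ∂μ =
          ∫ x, inner ℝ (H x) (g' x) ∂μ - ∫ x, inner ℝ (K x) (g' x) ∂μ := by
      intro H K hH hK
      rw [← integral_sub (l2_inner hH hg') (l2_inner hK hg')]
      congr 1
      funext x
      rw [inner_sub_left]
    rw [h2 F G hf.memU hg.memU]
    refine h1.congr (fun m => ?_)
    rw [h2 _ _ (hf.mem m) (hg.mem m)]

theorem cmp_sq [SigmaFinite μ] {f : ℕ → α → E} {F : α → E} {s : ℕ → α → ℝ} {S : α → ℝ}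
    (hf : WC μ f F) (hs : WC μ s S) (h : ∀ m x, ‖f m x‖ ^ 2 ≤ s m x) :
    ∀ᵐ x ∂μ, ‖F x‖ ^ 2 ≤ S x := by
  have h0 : 0 ≤ᵐ[μ] fun x => S x - ‖F x‖ ^ 2 := by
    apply ae_nonneg_of_forall_setIntegral_nonneg_of_sigmaFinite
    · intro B hB hB'
      exact (l2_integrableOn hs.memU hB').sub (l2_sq hf.memU).integrableOn
    · intro B hB hB'
      have hSi := l2_integrableOn hs.memU hB'
      have hFi : IntegrableOn (fun x => ‖F x‖ ^ 2) B μ := (l2_sq hf.memU).integrableOn
      rw [integral_sub hSi hFi]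
      have h1 := wc_set_real hs hB hB'
      have h2 := wc_set_inner hf hf.memU hB
      have h3 : Tendsto (fun m => ∫ x in B, s m x ∂μ - 2 * ∫ x in B, inner ℝ (f m x) (F x) ∂μ +
          ∫ x in B, ‖F x‖ ^ 2 ∂μ) atTop (𝓝 (∫ x in B, S x ∂μ -
          2 * ∫ x in B, inner ℝ (F x) (F x) ∂μ + ∫ x in B, ‖F x‖ ^ 2 ∂μ)) :=
        (h1.sub (h2.const_mul 2)).add_const _
      have h4 : ∫ x in B, S x ∂μ - 2 * ∫ x in B, inner ℝ (F x) (F x) ∂μ +
          ∫ x in B, ‖F x‖ ^ 2 ∂μ = ∫ x in B, S x ∂μ - ∫ x in B, ‖F x‖ ^ 2 ∂μ := by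
        simp only [real_inner_self_eq_norm_sq]
        ring
      rw [h4] at h3
      refine ge_of_tendsto' h3 (fun m => ?_)
      have i1 : IntegrableOn (fun x => s m x) B μ := l2_integrableOn (hs.mem m) hB'
      have i2 : IntegrableOn (fun x => inner ℝ (f m x) (F x)) B μ :=
        (l2_inner (hf.mem m) hf.memU).integrableOn
      have i3 : IntegrableOn (fun x => s m x - 2 * inner ℝ (f m x) (F x)) B μ :=
        i1.sub (i2.const_mul 2)
      rw [← integral_const_mul, ← integral_sub i1 (i2.const_mul 2), ← integral_add i3 hFi]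
      refine integral_nonneg (fun x => ?_)
      have h5 : ‖f m x - F x‖ ^ 2 = ‖f m x‖ ^ 2 - 2 * inner ℝ (f m x) (F x) + ‖F x‖ ^ 2 :=
        norm_sub_sq_real _ _
      have h6 := h m x
      have h7 : 0 ≤ ‖f m x - F x‖ ^ 2 := by positivity
      simp only [Pi.zero_apply]
      linarith
  filter_upwards [h0] with x hx
  simp only [Pi.zero_apply] at hx
  linarith

theorem cmp_le [SigmaFinite μ] {f g : ℕ → α → ℝ} {F G : α → ℝ}
    (hf : WC μ f F) (hg : WC μ g G) (h : ∀ m x, f m x ≤ g m x) : ∀ᵐ x ∂μ, F x ≤ G x := by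
  have h0 : 0 ≤ᵐ[μ] fun x => G x - F x := by
    apply ae_nonneg_of_forall_setIntegral_nonneg_of_sigmaFinite
    · intro B hB hB'
      exact (l2_integrableOn hg.memU hB').sub (l2_integrableOn hf.memU hB')
    · intro B hB hB'
      refine ge_of_tendsto' (wc_set_real (wc_sub hg hf) hB hB') (fun m => ?_)
      exact integral_nonneg (fun x => sub_nonneg.mpr (h m x))
  filter_upwards [h0] with x hx
  simp only [Pi.zero_apply] at hx
  linarith

theorem cmp_const [SigmaFinite μ] {f : ℕ → α → ℝ} {F : α → ℝ}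
    (hf : WC μ f F) {c : ℝ} (h : ∀ m x, f m x ≤ c) : ∀ᵐ x ∂μ, F x ≤ c := by
  have h0 : 0 ≤ᵐ[μ] fun x => c - F x := by
    apply ae_nonneg_of_forall_setIntegral_nonneg_of_sigmaFinite
    · intro B hB hB'
      exact (integrableOn_const hB'.ne).sub (l2_integrableOn hf.memU hB')
    · intro B hB hB'
      have h1 := (wc_set_real hf hB hB').const_sub (∫ _ in B, c ∂μ)
      have hc : IntegrableOn (fun _ => c) B μ := integrableOn_const hB'.ne
      rw [integral_sub hc (l2_integrableOn hf.memU hB')]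
      refine ge_of_tendsto' h1 (fun m => ?_)
      rw [← integral_sub hc (l2_integrableOn (hf.mem m) hB')]
      exact integral_nonneg (fun x => sub_nonneg.mpr (h m x))
  filter_upwards [h0] with x hx
  simp only [Pi.zero_apply] at hx
  linarith

end basic

section main

variable {α : Type*} [MeasurableSpace α] {μ : Measure α}
variable {E : Type*} [NormedAddCommGroup E] [InnerProductSpace ℝ E] [FiniteDimensional ℝ E]
  [MeasurableSpace E] [BorelSpace E]

theorem tv_main [SigmaFinite μ] {u : ℕ → α → E} {U : α → E} {uk : ℕ → α → E} {ak : ℕ → α → ℝ}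
    (h : TV μ u U uk ak) :
    ∃ A : α → ℝ, Integrable A μ ∧
      (∀ᵐ x ∂μ, ∀ k, ‖uk k x‖ ^ 2 ≤ ak k x ∧ ak k x ≤ ak (k + 1) x ∧ ak k x ≤ A x ∧
        ‖uk k x‖ ≤ k + 1 ∧ ak k x ≤ ((k : ℝ) + 1) ^ 2) ∧
      (∀ᵐ x ∂μ, Tendsto (fun k => ak k x) atTop (𝓝 (A x))) ∧
      (∀ᵐ x ∂μ, Tendsto (fun k => uk k x) atTop (𝓝 (U x))) ∧
      (∀ᵐ x ∂μ, ‖U x‖ ^ 2 ≤ A x) ∧
      (∀ k, Integrable (ak k) μ) ∧
      Tendsto (fun k => ∫ x, |A x - ak k x| ∂μ) atTop (𝓝 0) ∧
      Tendsto (fun k => eLpNorm (fun x => uk k x - U x) 2 μ) atTop (𝓝 0) := by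
  classical
  have hCompl : CompleteSpace E := FiniteDimensional.complete ℝ E
  have hkpos : ∀ k : ℕ, (0 : ℝ) < (k : ℝ) + 1 := fun k => by positivity
  -- the pointwise inequalities
  have hsq : ∀ᵐ x ∂μ, ∀ k, ‖uk k x‖ ^ 2 ≤ ak k x := by
    rw [ae_all_iff]
    intro k
    exact cmp_sq (h.wk k) (h.wa k) (fun m x => le_rfl)
  have hmono : ∀ᵐ x ∂μ, ∀ k, ak k x ≤ ak (k + 1) x := by
    rw [ae_all_iff]
    intro k
    refine cmp_le (h.wa k) (h.wa (k + 1)) (fun m x => ?_)
    apply pow_le_pow_left₀ (norm_nonneg _)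
    apply bk_mono (hkpos k)
    push_cast
    linarith
  have hconst : ∀ᵐ x ∂μ, ∀ k : ℕ, ak k x ≤ ((k : ℝ) + 1) ^ 2 := by
    rw [ae_all_iff]
    intro k
    refine cmp_const (h.wa k) (fun m x => ?_)
    exact pow_le_pow_left₀ (norm_nonneg _) (bk_norm_le_k (hkpos k) _) 2
  have hdiff : ∀ᵐ x ∂μ, ∀ k l : ℕ, k ≤ l → ‖uk l x - uk k x‖ ^ 2 ≤ ak l x - ak k x := by
    rw [ae_all_iff]
    intro k
    rw [ae_all_iff]
    intro l
    by_cases hkl : k ≤ l
    · have h1 := cmp_sq (wc_sub (h.wk l) (h.wk k)) (wc_sub (h.wa l) (h.wa k)) (fun m x => by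
        apply bk_diff_sq (hkpos k)
        have : (k : ℝ) ≤ l := by exact_mod_cast hkl
        linarith)
      filter_upwards [h1] with x hx _
      exact hx
    · exact Eventually.of_forall (fun x hkl' => absurd hkl' hkl)
  -- the uniform bound
  obtain ⟨C', hC'⟩ := h.w.bdd
  set C : ℝ := max C' 0 with hCdef
  have hC0 : 0 ≤ C := le_max_right _ _
  have hC : ∀ m, eLpNorm (u m) 2 μ ≤ ENNReal.ofReal C :=
    fun m => (hC' m).trans (ENNReal.ofReal_le_ofReal (le_max_left _ _))
  have hCsq : ∀ m, ∫ x, ‖u m x‖ ^ 2 ∂μ ≤ C ^ 2 := fun m => int_sq_le (h.w.mem m) hC0 (hC m)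
  have hlint : ∀ k, ∫⁻ x, ENNReal.ofReal (ak k x) ∂μ ≤ ENNReal.ofReal (C ^ 2) := by
    intro k
    have hB : ∀ B, MeasurableSet B → μ B < ⊤ →
        ∫⁻ x in B, ENNReal.ofReal (ak k x) ∂μ ≤ ENNReal.ofReal (C ^ 2) := by
      intro B hB hB'
      have hint := l2_integrableOn (h.wa k).memU hB'
      rw [← ofReal_integral_eq_lintegral_ofReal hint]
      · apply ENNReal.ofReal_le_ofReal
        refine le_of_tendsto' (wc_set_real (h.wa k) hB hB') (fun m => ?_)
        have i1 : Integrable (fun x => ‖u m x‖ ^ 2) μ := l2_sq (h.w.mem m)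
        calc ∫ x in B, ‖bk ((k : ℝ) + 1) (u m x)‖ ^ 2 ∂μ
            ≤ ∫ x in B, ‖u m x‖ ^ 2 ∂μ := by
              refine integral_mono (l2_integrableOn ((h.wa k).mem m) hB') i1.integrableOn
                (fun x => ?_)
              exact pow_le_pow_left₀ (norm_nonneg _) (bk_norm_le _ _) 2
          _ ≤ ∫ x, ‖u m x‖ ^ 2 ∂μ :=
              setIntegral_le_integral i1 (Eventually.of_forall fun x => by positivity)
          _ ≤ C ^ 2 := hCsq m
      · refine ae_restrict_of_ae ?_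
        filter_upwards [hsq] with x hx
        exact (by positivity : (0 : ℝ) ≤ ‖uk k x‖ ^ 2).trans (hx k)
    have huniv : ∫⁻ x, ENNReal.ofReal (ak k x) ∂μ =
        ⨆ i, ∫⁻ x in spanningSets μ i, ENNReal.ofReal (ak k x) ∂μ := by
      rw [← setLIntegral_univ, ← iUnion_spanningSets μ]
      exact setLIntegral_iUnion_of_directed _ (monotone_spanningSets μ).directed_le
    rw [huniv]
    exact iSup_le (fun i => hB _ (measurableSet_spanningSets μ i) (measure_spanningSets_lt_top μ i))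
  -- the limit
  let A' : α → ℝ≥0∞ := fun x => ⨆ k, ENNReal.ofReal (ak k x)
  have hakm : ∀ k, AEMeasurable (fun x => ENNReal.ofReal (ak k x)) μ :=
    fun k => (h.wa k).memU.1.aemeasurable.ennreal_ofReal
  have hA'm : AEMeasurable A' μ := AEMeasurable.iSup hakm
  have hA'lint : ∫⁻ x, A' x ∂μ ≤ ENNReal.ofReal (C ^ 2) := by
    have h1 : ∫⁻ x, A' x ∂μ = ⨆ k, ∫⁻ x, ENNReal.ofReal (ak k x) ∂μ := by
      refine lintegral_iSup' hakm ?_
      filter_upwards [hmono] with x hx
      exact monotone_nat_of_le_succ (fun k => ENNReal.ofReal_le_ofReal (hx k))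
    rw [h1]
    exact iSup_le hlint
  have hA'fin : ∫⁻ x, A' x ∂μ ≠ ⊤ := ne_top_of_le_ne_top ENNReal.ofReal_ne_top hA'lint
  let A : α → ℝ := fun x => (A' x).toReal
  have hAint : Integrable A μ := integrable_toReal_of_lintegral_ne_top hA'm hA'fin
  have hA'lt : ∀ᵐ x ∂μ, A' x < ⊤ := ae_lt_top' hA'm hA'fin
  have hnn : ∀ᵐ x ∂μ, ∀ k, 0 ≤ ak k x := by
    filter_upwards [hsq] with x hx k
    exact (by positivity : (0 : ℝ) ≤ ‖uk k x‖ ^ 2).trans (hx k)
  have hleA : ∀ᵐ x ∂μ, ∀ k, ak k x ≤ A x := by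
    filter_upwards [hA'lt, hnn] with x hx hx0 k
    have h1 : ENNReal.ofReal (ak k x) ≤ A' x := le_iSup (fun k => ENNReal.ofReal (ak k x)) k
    have h2 := ENNReal.toReal_mono hx.ne h1
    rwa [ENNReal.toReal_ofReal (hx0 k)] at h2
  have htend : ∀ᵐ x ∂μ, Tendsto (fun k => ak k x) atTop (𝓝 (A x)) := by
    filter_upwards [hA'lt, hnn, hmono] with x hx hx0 hxm
    have h1 : Tendsto (fun k => ENNReal.ofReal (ak k x)) atTop (𝓝 (A' x)) :=
      tendsto_atTop_iSup (monotone_nat_of_le_succ (fun k => ENNReal.ofReal_le_ofReal (hxm k)))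
    have h2 := (ENNReal.tendsto_toReal hx.ne).comp h1
    refine h2.congr (fun k => ?_)
    simp only [Function.comp_apply]
    exact ENNReal.toReal_ofReal (hx0 k)
  have hakint : ∀ k, Integrable (ak k) μ := by
    intro k
    refine hAint.mono' (h.wa k).memU.1 ?_
    filter_upwards [hleA, hnn] with x hx hx0
    rw [Real.norm_of_nonneg (hx0 k)]
    exact hx k
  have hL1 : Tendsto (fun k => ∫ x, |A x - ak k x| ∂μ) atTop (𝓝 0) := by
    have h1 : Tendsto (fun k => ∫ x, |A x - ak k x| ∂μ) atTop (𝓝 (∫ _, (0 : ℝ) ∂μ)) := by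
      refine tendsto_integral_of_dominated_convergence A ?_ hAint ?_ ?_
      · intro k
        exact (hAint.sub (hakint k)).abs.1
      · intro k
        filter_upwards [hleA, hnn] with x hx hx0
        rw [Real.norm_eq_abs, abs_abs, abs_of_nonneg (by linarith [hx k])]
        linarith [hx0 k]
      · filter_upwards [htend] with x hx
        have h2 := (hx.const_sub (A x)).abs
        simpa using h2
    simpa using h1
  -- Cauchy property
  have hcau : ∀ᵐ x ∂μ, ∃ V : E, Tendsto (fun k => uk k x) atTop (𝓝 V) := by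
    filter_upwards [hdiff, hleA, htend] with x hx hxA hxt
    have hb : Tendsto (fun k => 2 * Real.sqrt (A x - ak k x)) atTop (𝓝 0) := by
      have h1 : Tendsto (fun k => A x - ak k x) atTop (𝓝 0) := by
        have := hxt.const_sub (A x)
        simpa using this
      have h2 := (h1.sqrt).const_mul 2
      simpa using h2
    have hd : ∀ N n, N ≤ n → dist (uk n x) (uk N x) ≤ Real.sqrt (A x - ak N x) := by
      intro N n hN
      rw [dist_eq_norm]
      apply Real.le_sqrt_of_sq_le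
      have h1 := hx N n hN
      have h2 := hxA n
      linarith
    have hc : CauchySeq (fun k => uk k x) := by
      refine cauchySeq_of_le_tendsto_0 (fun k => 2 * Real.sqrt (A x - ak k x)) ?_ hb
      intro n m N hn hm
      calc dist (uk n x) (uk m x) ≤ dist (uk n x) (uk N x) + dist (uk m x) (uk N x) :=
            dist_triangle_right _ _ _
        _ ≤ Real.sqrt (A x - ak N x) + Real.sqrt (A x - ak N x) :=
            add_le_add (hd N n hn) (hd N m hm)
        _ = 2 * Real.sqrt (A x - ak N x) := by ring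
    exact cauchySeq_tendsto_of_complete hc
  let V : α → E := fun x => if hx : ∃ V : E, Tendsto (fun k => uk k x) atTop (𝓝 V) then
    hx.choose else 0
  have hV : ∀ᵐ x ∂μ, Tendsto (fun k => uk k x) atTop (𝓝 (V x)) := by
    filter_upwards [hcau] with x hx
    simp only [V, dif_pos hx]
    exact hx.choose_spec
  have hVm : AEStronglyMeasurable V μ :=
    aestronglyMeasurable_of_tendsto_ae atTop (fun k => (h.wk k).memU.1) hV
  have hVA : ∀ᵐ x ∂μ, ‖V x‖ ^ 2 ≤ A x := by
    filter_upwards [hV, hsq, hleA] with x hx h1 h2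
    refine le_of_tendsto' (hx.norm.pow 2) (fun k => (h1 k).trans (h2 k))
  have hVd : ∀ᵐ x ∂μ, ∀ k, ‖uk k x - V x‖ ^ 2 ≤ A x - ak k x := by
    filter_upwards [hV, hdiff, hleA] with x hx h1 h2 k
    have h3 : Tendsto (fun l => ‖uk k x - uk l x‖ ^ 2) atTop (𝓝 (‖uk k x - V x‖ ^ 2)) :=
      ((hx.const_sub (uk k x)).norm).pow 2
    refine le_of_tendsto h3 ?_
    filter_upwards [eventually_ge_atTop k] with l hl
    rw [norm_sub_rev]
    have := h1 k l hl
    have := h2 l
    linarith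
  -- strong convergence
  have hstrong : Tendsto (fun k => eLpNorm (fun x => uk k x - V x) 2 μ) atTop (𝓝 0) := by
    have h1 : ∀ k, eLpNorm (fun x => uk k x - V x) 2 μ ^ 2 ≤
        ENNReal.ofReal (∫ x, |A x - ak k x| ∂μ) := by
      intro k
      have i0 : Integrable (fun x => |A x - ak k x|) μ := (hAint.sub (hakint k)).abs
      rw [← lint_sq, ofReal_integral_eq_lintegral_ofReal i0
        (Eventually.of_forall fun x => abs_nonneg _)]
      refine lintegral_mono_ae ?_
      filter_upwards [hVd] with x hx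
      rw [← ofReal_norm, ← ENNReal.ofReal_pow (norm_nonneg _)]
      exact ENNReal.ofReal_le_ofReal ((hx k).trans (le_abs_self _))
    have h2 : Tendsto (fun k => eLpNorm (fun x => uk k x - V x) 2 μ ^ 2) atTop (𝓝 0) := by
      refine tendsto_of_tendsto_of_tendsto_of_le_of_le tendsto_const_nhds ?_
        (fun k => zero_le) h1
      have h3 := ENNReal.tendsto_ofReal hL1
      simpa using h3
    have h4 : Tendsto (fun k => (eLpNorm (fun x => uk k x - V x) 2 μ ^ 2) ^ (1 / 2 : ℝ)) atTop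
        (𝓝 (0 ^ (1 / 2 : ℝ))) := (ENNReal.continuous_rpow_const.tendsto _).comp h2
    have h5 : (0 : ℝ≥0∞) ^ (1 / 2 : ℝ) = 0 := ENNReal.zero_rpow_of_pos (by norm_num)
    rw [h5] at h4
    refine h4.congr (fun k => ?_)
    rw [← ENNReal.rpow_natCast, ← ENNReal.rpow_mul]
    norm_num
  -- identification of the limit
  have hid : V =ᵐ[μ] U := by
    have hUint : ∀ B, μ B < ⊤ → IntegrableOn U B μ := fun B hB => l2_integrableOn h.w.memU hB
    have hukint : ∀ k B, μ B < ⊤ → IntegrableOn (uk k) B μ :=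
      fun k B hB => l2_integrableOn (h.wk k).memU hB
    have hbound1 : ∀ᵐ x ∂μ, ‖V x‖ ≤ 1 + A x := by
      filter_upwards [hVA] with x hx
      nlinarith [sq_nonneg (‖V x‖ - 1), norm_nonneg (V x), sq_nonneg (‖V x‖)]
    have hdom : ∀ B, μ B < ⊤ → IntegrableOn (fun x => 1 + A x) B μ := fun B hB =>
      (integrableOn_const hB.ne).add hAint.integrableOn
    have hVint : ∀ B, μ B < ⊤ → IntegrableOn V B μ := fun B hB =>
      (hdom B hB).mono' hVm.restrict (ae_restrict_of_ae hbound1)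
    have hkey : ∀ B, MeasurableSet B → μ B < ⊤ → ∀ k : ℕ,
        ‖∫ x in B, (U x - uk k x) ∂μ‖ ≤ C ^ 2 / ((k : ℝ) + 1) := by
      intro B hB hB' k
      set w : E := ∫ x in B, (U x - uk k x) ∂μ with hw
      have i0 : IntegrableOn (fun x => U x - uk k x) B μ := (hUint B hB').sub (hukint k B hB')
      have h1 : Tendsto (fun m => ∫ x in B, inner ℝ (u m x - bk ((k : ℝ) + 1) (u m x)) w ∂μ) atTop
          (𝓝 (∫ x in B, inner ℝ (U x - uk k x) w ∂μ)) :=
        wc_set_inner_const (wc_sub h.w (h.wk k)) w hB hB'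
      have h2 : ∫ x in B, inner ℝ (U x - uk k x) w ∂μ = ‖w‖ ^ 2 := by
        have h3 : ∫ x in B, inner ℝ w (U x - uk k x) ∂μ = inner ℝ w w := integral_inner i0 w
        rw [← real_inner_self_eq_norm_sq, ← h3]
        congr 1
        funext x
        rw [real_inner_comm]
      rw [h2] at h1
      have h4 : ‖w‖ ^ 2 ≤ (C ^ 2 / ((k : ℝ) + 1)) * ‖w‖ := by
        refine le_of_tendsto' h1 (fun m => ?_)
        have i1 : Integrable (fun x => ‖u m x‖ ^ 2) μ := l2_sq (h.w.mem m)
        have i2 : IntegrableOn (fun x => inner ℝ (u m x - bk ((k : ℝ) + 1) (u m x)) w) B μ := by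
          have : IntegrableOn (fun x => u m x - bk ((k : ℝ) + 1) (u m x)) B μ :=
            (l2_integrableOn (h.w.mem m) hB').sub (l2_integrableOn ((h.wk k).mem m) hB')
          exact this.inner_const w
        calc ∫ x in B, inner ℝ (u m x - bk ((k : ℝ) + 1) (u m x)) w ∂μ
            ≤ ∫ x in B, ‖w‖ / ((k : ℝ) + 1) * ‖u m x‖ ^ 2 ∂μ := by
              refine integral_mono i2 (i1.integrableOn.const_mul _) (fun x => ?_)
              have h5 := real_inner_le_norm (u m x - bk ((k : ℝ) + 1) (u m x)) w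
              have h6 := bk_sub_le (hkpos k) (u m x)
              calc inner ℝ (u m x - bk ((k : ℝ) + 1) (u m x)) w
                  ≤ ‖u m x - bk ((k : ℝ) + 1) (u m x)‖ * ‖w‖ := h5
                _ ≤ (‖u m x‖ ^ 2 / ((k : ℝ) + 1)) * ‖w‖ :=
                    mul_le_mul_of_nonneg_right h6 (norm_nonneg _)
                _ = ‖w‖ / ((k : ℝ) + 1) * ‖u m x‖ ^ 2 := by ring
          _ = ‖w‖ / ((k : ℝ) + 1) * ∫ x in B, ‖u m x‖ ^ 2 ∂μ := integral_const_mul _ _
          _ ≤ ‖w‖ / ((k : ℝ) + 1) * C ^ 2 := by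
              apply mul_le_mul_of_nonneg_left _ (by have := hkpos k; positivity)
              exact (setIntegral_le_integral i1
                (Eventually.of_forall fun x => by positivity)).trans (hCsq m)
          _ = (C ^ 2 / ((k : ℝ) + 1)) * ‖w‖ := by ring
      by_cases hw0 : ‖w‖ = 0
      · rw [hw0]
        have := hkpos k
        positivity
      · have hwpos : 0 < ‖w‖ := lt_of_le_of_ne (norm_nonneg _) (Ne.symm hw0)
        rw [pow_two] at h4
        exact le_of_mul_le_mul_right h4 hwpos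
    have hzero : (fun x => U x - V x) =ᵐ[μ] 0 := by
      apply ae_eq_zero_of_forall_setIntegral_eq_of_sigmaFinite
      · intro B hB hB'
        exact (hUint B hB').sub (hVint B hB')
      · intro B hB hB'
        have h1 : Tendsto (fun k => ∫ x in B, uk k x ∂μ) atTop (𝓝 (∫ x in B, V x ∂μ)) := by
          refine tendsto_integral_of_dominated_convergence (fun x => 1 + A x)
            (fun k => (hukint k B hB').1) (hdom B hB') ?_ (ae_restrict_of_ae hV)
          intro k
          refine ae_restrict_of_ae ?_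
          filter_upwards [hsq, hleA] with x h2 h3
          nlinarith [sq_nonneg (‖uk k x‖ - 1), norm_nonneg (uk k x), h2 k, h3 k,
            sq_nonneg (‖uk k x‖)]
        have h2 : Tendsto (fun k => ∫ x in B, (U x - uk k x) ∂μ) atTop
            (𝓝 (∫ x in B, U x ∂μ - ∫ x in B, V x ∂μ)) := by
          refine (h1.const_sub (∫ x in B, U x ∂μ)).congr (fun k => ?_)
          rw [integral_sub (hUint B hB') (hukint k B hB')]
        have h3 : Tendsto (fun k : ℕ => ∫ x in B, (U x - uk k x) ∂μ) atTop (𝓝 0) := by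
          rw [tendsto_zero_iff_norm_tendsto_zero]
          refine tendsto_of_tendsto_of_tendsto_of_le_of_le tendsto_const_nhds
            ?_ (fun k => norm_nonneg _) (hkey B hB hB')
          have h4 : Tendsto (fun k : ℕ => C ^ 2 * (1 / ((k : ℝ) + 1))) atTop (𝓝 (C ^ 2 * 0)) :=
            tendsto_one_div_add_atTop_nhds_zero_nat.const_mul _
          rw [mul_zero] at h4
          refine h4.congr (fun k => ?_)
          ring
        have h5 := tendsto_nhds_unique h2 h3
        rw [integral_sub (hUint B hB') (hVint B hB')]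
        exact h5
    filter_upwards [hzero] with x hx
    simp only [Pi.zero_apply] at hx
    exact (sub_eq_zero.mp hx).symm
  refine ⟨A, hAint, ?_, htend, ?_, ?_, hakint, hL1, ?_⟩
  · filter_upwards [hsq, hmono, hleA, hconst] with x h1 h2 h3 h4 k
    refine ⟨h1 k, h2 k, h3 k, ?_, h4 k⟩
    have h5 : ‖uk k x‖ ^ 2 ≤ ((k : ℝ) + 1) ^ 2 := (h1 k).trans (h4 k)
    exact (sq_le_sq₀ (norm_nonneg _) (hkpos k).le).mp h5
  · filter_upwards [hV, hid] with x h1 h2
    rwa [h2] at h1
  · filter_upwards [hVA, hid] with x h1 h2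
    rwa [h2] at h1
  · refine hstrong.congr (fun k => ?_)
    apply eLpNorm_congr_ae
    filter_upwards [hid] with x hx
    rw [hx]

end main

end Pool.Agent.Helper22.Jef
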